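import Mathlib
import Pool.Agent.Lib.helper1.Submod

set_option autoImplicit false

open MeasureTheory ProbabilityTheory Pool.Agent.Lib.helper1.Submod
open scoped NNReal

namespace Pool.Agent.Results.MP_04c77c_pr.NotConvex

/-- The integrand `-f log f` for the density `f` of a law on `ℝ^d`. -/
noncomputable def ent {d : ℕ} (ν : Measure (Fin d → ℝ)) (x : Fin d → ℝ) : ℝ :=
  Real.negMulLog (ν.rnDeriv volume x).toReal

/-- The entropy power region: vectors of entropy powers of subset sums of independent random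
vectors in some `ℝ^d`, all having densities and finite differential entropies. -/
def Gam (n : ℕ) : Set ({S : Finset (Fin n) // S.Nonempty} → ℝ) :=
  {v | ∃ d : ℕ, 0 < d ∧ ∃ (Ω : Type) (_ : MeasurableSpace Ω) (P : Measure Ω)
    (X : Fin n → Ω → Fin d → ℝ), IsProbabilityMeasure P ∧ (∀ i, Measurable (X i)) ∧
    iIndepFun X P ∧ ∀ S : {S : Finset (Fin n) // S.Nonempty},
      P.map (fun ω => ∑ i ∈ S.1, X i ω) ≪ volume ∧
      Integrable (ent (P.map (fun ω => ∑ i ∈ S.1, X i ω))) ∧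
      v S = Real.exp (2 / d * ∫ x, ent (P.map (fun ω => ∑ i ∈ S.1, X i ω)) x)}

lemma gauss_mem {n : ℕ} (a b : Fin n → ℝ≥0) (ha : ∀ i, a i ≠ 0) (hb : ∀ i, b i ≠ 0) :
    (fun S : {S : Finset (Fin n) // S.Nonempty} => 2 * Real.pi * Real.exp 1
      * Real.sqrt ((∑ i ∈ S.1, a i : ℝ≥0) * (∑ i ∈ S.1, b i : ℝ≥0))) ∈ Gam n := by
  refine ⟨2, two_pos, Fin n → E 2, inferInstance, Measure.pi fun i => G2 (a i) (b i),
    fun i ω => ω i, inferInstance, fun i => measurable_pi_apply i,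
    iIndepFun_pi (X := fun _ => id) (fun _ => aemeasurable_id), fun S => ?_⟩
  obtain ⟨j, hj⟩ := S.2
  have h1 : ∑ i ∈ S.1, a i ≠ 0 := fun h => ha j (Finset.sum_eq_zero_iff.1 h j hj)
  have h2 : ∑ i ∈ S.1, b i ≠ 0 := fun h => hb j (Finset.sum_eq_zero_iff.1 h j hj)
  rw [sum_law]
  refine ⟨G2_ac h1 h2, (ent_int (G2_ac h1 h2)).2 (G2_ent h1 h2).1, ?_⟩
  unfold ent
  rw [ent_eq (G2_ac h1 h2)]
  simp only [Nat.cast_ofNat, ne_eq, OfNat.ofNat_ne_zero, not_false_eq_true, div_self, one_mul]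
  exact (G2_ent h1 h2).2.symm

lemma sub_mem {n : ℕ} {i j k : Fin n} (hij : i ≠ j) (hik : i ≠ k) (hjk : j ≠ k)
    {v : {S : Finset (Fin n) // S.Nonempty} → ℝ} (hv : v ∈ Gam n) :
    v ⟨{i, j, k}, by simp⟩ * v ⟨{k}, by simp⟩ ≤ v ⟨{i, k}, by simp⟩ * v ⟨{j, k}, by simp⟩ := by
  obtain ⟨d, hd, Ω, _, P, X, hP, hm, hi, h⟩ := hv
  have pr : ∀ l, IsProbabilityMeasure (P.map (X l)) := fun l =>
    Measure.isProbabilityMeasure_map (hm l).aemeasurable
  have ac : ∀ l, P.map (X l) ≪ volume := fun l => by simpa using (h ⟨{l}, by simp⟩).1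
  have l2 : ∀ {l m : Fin n}, l ≠ m → P.map (fun ω => ∑ t ∈ ({l, m} : Finset (Fin n)), X t ω)
      = P.map (X l) ∗ P.map (X m) := by
    intro l m hlm
    simp_rw [Finset.sum_pair hlm]
    exact (hi.indepFun hlm).map_add_eq_map_conv_map (hm l) (hm m)
  have l3 : P.map (fun ω => ∑ t ∈ ({i, j, k} : Finset (Fin n)), X t ω)
      = (P.map (X i) ∗ P.map (X j)) ∗ P.map (X k) := by
    rw [Measure.conv_assoc, ← (hi.indepFun hjk).map_add_eq_map_conv_map (hm j) (hm k),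
      ← (hi.indepFun_add_right hm i j k hij hik).map_add_eq_map_conv_map (hm i)
        ((hm j).add (hm k))]
    congr 1
    ext ω : 1
    rw [Finset.sum_insert (by simp [hij, hik]), Finset.sum_pair hjk]
    rfl
  have l1 : P.map (fun ω => ∑ t ∈ ({k} : Finset (Fin n)), X t ω) = P.map (X k) := by simp
  obtain ⟨a1, b1, c1⟩ := h ⟨{i, k}, by simp⟩
  obtain ⟨a2, b2, c2⟩ := h ⟨{j, k}, by simp⟩
  obtain ⟨a3, b3, c3⟩ := h ⟨{i, j, k}, by simp⟩
  obtain ⟨a4, b4, c4⟩ := h ⟨{k}, by simp⟩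
  simp only at a1 b1 c1 a2 b2 c2 a3 b3 c3 a4 b4 c4
  rw [l2 hik] at a1 b1 c1
  rw [l2 hjk] at a2 b2 c2
  rw [l3] at a3 b3 c3
  rw [l1] at a4 b4 c4
  have := pr i
  have := pr j
  have := pr k
  have hs := submod _ _ _ (ac i) (ac j) (ac k) ((ent_int a1).1 b1) ((ent_int a2).1 b2)
    ((ent_int a3).1 b3) ((ent_int a4).1 b4)
  unfold ent at c1 c2 c3 c4
  rw [c1, c2, c3, c4, ent_eq a1, ent_eq a2, ent_eq a3, ent_eq a4, ← Real.exp_add, ← Real.exp_add,
    Real.exp_le_exp, ← mul_add, ← mul_add]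
  exact mul_le_mul_of_nonneg_left (by linarith) (by positivity)

theorem result : ∀ n : ℕ, 3 ≤ n → ¬ Convex ℝ (closure (Gam n)) := by
  intro n hn H
  obtain ⟨m, rfl⟩ : ∃ m, n = m + 3 := ⟨n - 3, by omega⟩
  have h01 : (0 : Fin (m + 3)) ≠ 1 := by simp
  have h02 : (0 : Fin (m + 3)) ≠ 2 := by
    simp [Fin.ext_iff, Nat.mod_eq_of_lt (show 2 < m + 3 by omega)]
  have h12 : (1 : Fin (m + 3)) ≠ 2 := by
    simp [Fin.ext_iff, Nat.mod_eq_of_lt (show 2 < m + 3 by omega)]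
  have cl : closure (Gam (m + 3)) ⊆ {v | v ⟨{0, 1, 2}, by simp⟩ * v ⟨{2}, by simp⟩
      ≤ v ⟨{0, 2}, by simp⟩ * v ⟨{1, 2}, by simp⟩} :=
    closure_minimal (fun v hv => sub_mem h01 h02 h12 hv) (isClosed_le (by fun_prop) (by fun_prop))
  have m1 := gauss_mem (n := m + 3) (fun i => if i = 0 then 49 else 1)
    (fun i => if i = 1 then 49 else 1) (fun i => by split_ifs <;> norm_num)
    (fun i => by split_ifs <;> norm_num)
  have m2 := gauss_mem (n := m + 3) (fun i => if i = 2 then 3 else 1)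
    (fun i => if i = 2 then 3 else 1) (fun i => by split_ifs <;> norm_num)
    (fun i => by split_ifs <;> norm_num)
  have h := cl (H (subset_closure m1) (subset_closure m2) (show (0:ℝ) ≤ 1 / 2 by norm_num)
    (show (0:ℝ) ≤ 1 / 2 by norm_num) (by norm_num))
  have n0 : (0 : Fin (m + 3)) ∉ ({1, 2} : Finset (Fin (m + 3))) := by simp [h02]
  simp only [Set.mem_ofPred_eq, Pi.add_apply, Pi.smul_apply, smul_eq_mul, Finset.sum_insert n0,
    Finset.sum_pair h12, Finset.sum_pair h02, Finset.sum_singleton, if_true, if_neg h01,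
    if_neg h02, if_neg h12, if_neg h01.symm, if_neg h02.symm, if_neg h12.symm] at h
  have s : ∀ x y : ℝ, 0 ≤ y → x = y ^ 2 → Real.sqrt x = y := fun x y hy e => by
    rw [e, Real.sqrt_sq hy]
  push_cast at h
  rw [s ((49 + (1 + 1)) * (1 + (49 + 1))) 51 (by norm_num) (by norm_num),
    s ((1 + (1 + 3)) * (1 + (1 + 3))) 5 (by norm_num) (by norm_num),
    s (1 * 1) 1 (by norm_num) (by norm_num), s (3 * 3) 3 (by norm_num) (by norm_num),
    s ((49 + 1) * (1 + 1)) 10 (by norm_num) (by norm_num),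
    s ((1 + 1) * (49 + 1)) 10 (by norm_num) (by norm_num),
    s ((1 + 3) * (1 + 3)) 4 (by norm_num) (by norm_num)] at h
  have p : 0 < 2 * Real.pi * Real.exp 1 := by have := Real.pi_pos; positivity
  nlinarith [mul_pos p p]

end Pool.Agent.Results.MP_04c77c_pr.NotConvex
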